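import Pool.Agent.W788.BK.Lat

/-! Local smoothing is insensitive to a change of the potential outside a large box. -/

set_option autoImplicit false

open scoped BigOperators
open MeasureTheory

namespace Pool.Agent.T2h98.GBK

open Pool.Agent.W788.BK
open Pool.Agent.H4R2.LO (Zd)

variable {d : ℕ}

/-- the cutoff function -/
noncomputable def chi (R : ℝ) (x : Zd d) : ℝ := max 0 (min 1 (2 - ‖x‖ / R))

theorem chi_nonneg (R : ℝ) (x : Zd d) : 0 ≤ chi R x := le_max_left _ _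

theorem chi_le_one (R : ℝ) (x : Zd d) : chi R x ≤ 1 := max_le (by norm_num) (min_le_left _ _)

theorem chi_one (R : ℝ) (hR : 0 < R) (x : Zd d) (hx : ‖x‖ ≤ R) : chi R x = 1 := by
  unfold chi
  have h1 : ‖x‖ / R ≤ 1 := (div_le_one hR).2 hx
  rw [min_eq_left (by linarith)]
  exact max_eq_right (by norm_num)

theorem chi_zero (R : ℝ) (hR : 0 < R) (x : Zd d) (hx : 2 * R ≤ ‖x‖) : chi R x = 0 := by
  unfold chi
  have h1 : 2 ≤ ‖x‖ / R := by
    rw [le_div_iff₀ hR]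
    exact hx
  rw [max_eq_left]
  exact (min_le_right _ _).trans (by linarith)

theorem chi_lip (R : ℝ) (hR : 0 < R) (x y : Zd d) : |chi R x - chi R y| ≤ ‖x - y‖ / R := by
  unfold chi
  have h1 := abs_max_sub_max_le_abs (min 1 (2 - ‖x‖ / R)) (min 1 (2 - ‖y‖ / R)) (0 : ℝ)
  rw [max_comm _ (0 : ℝ), max_comm _ (0 : ℝ)] at h1
  have h2 : |min 1 (2 - ‖x‖ / R) - min 1 (2 - ‖y‖ / R)| ≤
      |(2 - ‖x‖ / R) - (2 - ‖y‖ / R)| := by
    have := abs_min_sub_min_le_max 1 (2 - ‖x‖ / R) 1 (2 - ‖y‖ / R)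
    simpa using this
  have h3 : |(2 - ‖x‖ / R) - (2 - ‖y‖ / R)| = |‖x‖ - ‖y‖| / R := by
    rw [← abs_of_pos hR, ← abs_div, abs_of_pos hR, ← abs_neg]
    congr 1
    ring
  rw [h3] at h2
  refine (h1.trans h2).trans ?_
  apply div_le_div_of_nonneg_right _ hR.le
  exact abs_norm_sub_norm_le x y

theorem norm_single (i : Fin d) : ‖(Pi.single i 1 : Zd d)‖ ≤ 1 := by
  rw [pi_norm_le_iff_of_nonneg (by norm_num)]
  intro j
  by_cases h : j = i
  · rw [h, Pi.single_eq_same]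
    simp
  · rw [Pi.single_eq_of_ne h]
    simp

theorem tsum_shift (u : Zd d → ℝ) (a : Zd d) : ∑' x, u (x + a) ^ 2 = ∑' x, u x ^ 2 :=
  (Equiv.addRight a).tsum_eq fun x => u x ^ 2

theorem summable_shift (u : Zd d → ℝ) (a : Zd d) (h : Summable fun x => u x ^ 2) :
    Summable fun x => u (x + a) ^ 2 :=
  (Equiv.addRight a).summable_iff.2 h

/-- the error term -/
noncomputable def err (R : ℝ) (u : Zd d → ℝ) (x : Zd d) : ℝ := ∑ i : Fin d,
  ((chi R (x + Pi.single i 1) - chi R x) * u (x + Pi.single i 1) +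
    (chi R (x - Pi.single i 1) - chi R x) * u (x - Pi.single i 1))

theorem two_terms (R : ℝ) (p q y z : ℝ) (k3 : p ^ 2 ≤ 1 / R ^ 2) (k4 : q ^ 2 ≤ 1 / R ^ 2) :
    (p * y + q * z) ^ 2 ≤ 2 / R ^ 2 * (y ^ 2 + z ^ 2) := by
  calc (p * y + q * z) ^ 2 ≤ 2 * (p ^ 2 * y ^ 2) + 2 * (q ^ 2 * z ^ 2) := by
        nlinarith [sq_nonneg (p * y - q * z)]
    _ ≤ 2 * (1 / R ^ 2 * y ^ 2) + 2 * (1 / R ^ 2 * z ^ 2) := by gcongr
    _ = 2 / R ^ 2 * (y ^ 2 + z ^ 2) := by ring

theorem chi_step (R : ℝ) (hR : 0 < R) (x : Zd d) (i : Fin d) :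
    (chi R (x + Pi.single i 1) - chi R x) ^ 2 ≤ 1 / R ^ 2 := by
  have k1 : |chi R (x + Pi.single i 1) - chi R x| ≤ 1 / R := by
    refine (chi_lip R hR _ _).trans ?_
    rw [add_sub_cancel_left]
    exact div_le_div_of_nonneg_right (norm_single i) hR.le
  rw [← sq_abs, show (1 : ℝ) / R ^ 2 = (1 / R) ^ 2 by ring]
  exact pow_le_pow_left₀ (abs_nonneg _) k1 2

theorem chi_step' (R : ℝ) (hR : 0 < R) (x : Zd d) (i : Fin d) :
    (chi R (x - Pi.single i 1) - chi R x) ^ 2 ≤ 1 / R ^ 2 := by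
  have k1 : |chi R (x - Pi.single i 1) - chi R x| ≤ 1 / R := by
    refine (chi_lip R hR _ _).trans ?_
    rw [sub_sub_cancel_left, norm_neg]
    exact div_le_div_of_nonneg_right (norm_single i) hR.le
  rw [← sq_abs, show (1 : ℝ) / R ^ 2 = (1 / R) ^ 2 by ring]
  exact pow_le_pow_left₀ (abs_nonneg _) k1 2

theorem err_sq (R : ℝ) (hR : 0 < R) (u : Zd d → ℝ) (x : Zd d) : err R u x ^ 2 ≤
    (2 * d / R ^ 2) * ∑ i : Fin d, (u (x + Pi.single i 1) ^ 2 + u (x - Pi.single i 1) ^ 2) := by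
  have e1 : err R u x ^ 2 ≤ d * ∑ i : Fin d,
      ((chi R (x + Pi.single i 1) - chi R x) * u (x + Pi.single i 1) +
    (chi R (x - Pi.single i 1) - chi R x) * u (x - Pi.single i 1)) ^ 2 := by
    have := sq_sum_le_card_mul_sum_sq (s := (Finset.univ : Finset (Fin d)))
      (f := fun i => (chi R (x + Pi.single i 1) - chi R x) * u (x + Pi.single i 1) +
        (chi R (x - Pi.single i 1) - chi R x) * u (x - Pi.single i 1))
    rw [Finset.card_univ, Fintype.card_fin] at this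
    exact this
  refine e1.trans ?_
  have e2 : (2 * d / R ^ 2 : ℝ) = d * (2 / R ^ 2) := by ring
  rw [e2, mul_assoc]
  apply mul_le_mul_of_nonneg_left _ (by positivity)
  rw [Finset.mul_sum]
  exact Finset.sum_le_sum fun i _ =>
    two_terms R _ _ _ _ (chi_step R hR x i) (chi_step' R hR x i)

theorem err_sum (R : ℝ) (hR : 0 < R) (u : Zd d → ℝ) (hu : Summable fun x => u x ^ 2) :
    (Summable fun x => err R u x ^ 2) ∧
      ∑' x, err R u x ^ 2 ≤ 4 * d ^ 2 / R ^ 2 * ∑' x, u x ^ 2 := by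
  have hp : ∀ i : Fin d, Summable fun x : Zd d => u (x + Pi.single i 1) ^ 2 :=
    fun i => summable_shift u _ hu
  have hm : ∀ i : Fin d, Summable fun x : Zd d => u (x - Pi.single i 1) ^ 2 := by
    intro i
    have := summable_shift u (-Pi.single i 1) hu
    simpa only [sub_eq_add_neg] using this
  have hmt : ∀ i : Fin d, ∑' x : Zd d, u (x - Pi.single i 1) ^ 2 = ∑' x, u x ^ 2 := by
    intro i
    have := tsum_shift u (-Pi.single i 1)
    simpa only [sub_eq_add_neg] using this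
  have hsh : Summable fun x : Zd d => ∑ i : Fin d,
      (u (x + Pi.single i 1) ^ 2 + u (x - Pi.single i 1) ^ 2) :=
    summable_sum fun i _ => (hp i).add (hm i)
  have hws : Summable fun x => err R u x ^ 2 :=
    Summable.of_nonneg_of_le (fun x => sq_nonneg _) (err_sq R hR u) (hsh.mul_left _)
  refine ⟨hws, ?_⟩
  refine (hws.tsum_le_tsum (err_sq R hR u) (hsh.mul_left _)).trans (le_of_eq ?_)
  rw [tsum_mul_left, Summable.tsum_finsetSum (fun i _ => (hp i).add (hm i))]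
  have e1 : ∀ i : Fin d, ∑' x : Zd d, (u (x + Pi.single i 1) ^ 2 + u (x - Pi.single i 1) ^ 2) =
      2 * ∑' x, u x ^ 2 := by
    intro i
    rw [(hp i).tsum_add (hm i), tsum_shift, hmt i]
    ring
  rw [Finset.sum_congr rfl fun i _ => e1 i, Finset.sum_const, Finset.card_univ,
    Fintype.card_fin, nsmul_eq_mul]
  ring

theorem final_ineq (t R D g a U V F W : ℝ) (ht : 0 < t) (hR : 0 < R) (hg : 0 ≤ g)
    (hD : 0 ≤ D) (hU : 0 ≤ U) (hVU : V ≤ U) (hW : W ≤ 2 * F + 2 * (4 * D ^ 2 / R ^ 2 * U))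
    (hsc : 4 * D ≤ t * R) (key : a ≤ g * (5 * t * V + 2 * t⁻¹ * W)) :
    a ≤ 2 * g * (5 * t * U + 2 * t⁻¹ * F) := by
  refine key.trans ?_
  rw [mul_assoc 2 g, mul_left_comm 2 g]
  apply mul_le_mul_of_nonneg_left _ hg
  have hti : 0 < t⁻¹ := inv_pos.2 ht
  have e5 : 2 * t⁻¹ * (2 * (4 * D ^ 2 / R ^ 2)) ≤ t := by
    have e6 : (4 * D) ^ 2 ≤ (t * R) ^ 2 := pow_le_pow_left₀ (by positivity) hsc 2
    rw [show 2 * t⁻¹ * (2 * (4 * D ^ 2 / R ^ 2)) = (4 * D) ^ 2 / (t * R ^ 2) by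
      field_simp; ring, div_le_iff₀ (by positivity)]
    calc (4 * D) ^ 2 ≤ (t * R) ^ 2 := e6
      _ = _ := by ring
  calc 5 * t * V + 2 * t⁻¹ * W ≤
      5 * t * U + 2 * t⁻¹ * (2 * F + 2 * (4 * D ^ 2 / R ^ 2 * U)) := by gcongr
    _ = 5 * t * U + 2 * (2 * t⁻¹ * F) + (2 * t⁻¹ * (2 * (4 * D ^ 2 / R ^ 2))) * U := by ring
    _ ≤ 5 * t * U + 2 * (2 * t⁻¹ * F) + t * U := by gcongr
    _ ≤ 2 * (5 * t * U + 2 * t⁻¹ * F) := by
        have : 0 ≤ t * U := by positivity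
        linarith

/-- **local smoothing with another potential far away** -/
theorem SM1_cut (lam σ ρ t g R : ℝ) (ω ξ : Zd d → ℝ) (h : SM1 d lam ρ t g ω) (ht : 0 < t)
    (hg : 0 ≤ g) (hR : 0 < R) (hρ : ρ ≤ R)
    (hV : ∀ x : Zd d, ‖x‖ ≤ 2 * R → σ * ξ x = lam * ω x)
    (hsc : 4 * d ≤ t * R) : SM1 d σ ρ t (2 * g) ξ := by
  intro E u f hu hf heq a ha
  have hpot : ∀ x : Zd d, σ * ξ x * (chi R x * u x) = lam * ω x * (chi R x * u x) := by
    intro x
    by_cases hx : ‖x‖ ≤ 2 * R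
    · rw [hV x hx]
    · rw [chi_zero R hR x (not_le.1 hx).le]
      ring
  have heqv : ∀ x, ∑ i, (chi R (x + Pi.single i 1) * u (x + Pi.single i 1) +
      chi R (x - Pi.single i 1) * u (x - Pi.single i 1)) + lam * ω x * (chi R x * u x) =
      E * (chi R x * u x) + (chi R x * f x + err R u x) := by
    intro x
    rw [← hpot x]
    have h1 := heq x
    have h2 : ∑ i : Fin d, (chi R (x + Pi.single i 1) * u (x + Pi.single i 1) +
        chi R (x - Pi.single i 1) * u (x - Pi.single i 1)) =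
        chi R x * ∑ i : Fin d, (u (x + Pi.single i 1) + u (x - Pi.single i 1)) + err R u x := by
      unfold err
      rw [Finset.mul_sum, ← Finset.sum_add_distrib]
      refine Finset.sum_congr rfl fun i _ => ?_
      ring
    rw [h2]
    linear_combination chi R x * h1
  have hcs : ∀ (y : ℝ) (x : Zd d), (chi R x * y) ^ 2 ≤ y ^ 2 := by
    intro y x
    rw [mul_pow]
    have : chi R x ^ 2 ≤ 1 := pow_le_one₀ (chi_nonneg R x) (chi_le_one R x)
    nlinarith [sq_nonneg y]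
  have hvs : Summable fun x => (chi R x * u x) ^ 2 :=
    Summable.of_nonneg_of_le (fun x => sq_nonneg _) (fun x => hcs _ x) hu
  obtain ⟨hws, hwt⟩ := err_sum R hR u hu
  have hfb : ∀ x, (chi R x * f x + err R u x) ^ 2 ≤ 2 * f x ^ 2 + 2 * err R u x ^ 2 := by
    intro x
    have h1 := hcs (f x) x
    nlinarith [sq_nonneg (chi R x * f x - err R u x)]
  have hfs : Summable fun x => (chi R x * f x + err R u x) ^ 2 :=
    Summable.of_nonneg_of_le (fun x => sq_nonneg _) hfb ((hf.mul_left 2).add (hws.mul_left 2))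
  have hft : ∑' x, (chi R x * f x + err R u x) ^ 2 ≤
      2 * ∑' x, f x ^ 2 + 2 * (4 * d ^ 2 / R ^ 2 * ∑' x, u x ^ 2) := by
    refine (hfs.tsum_le_tsum hfb ((hf.mul_left 2).add (hws.mul_left 2))).trans ?_
    rw [(hf.mul_left 2).tsum_add (hws.mul_left 2), tsum_mul_left, tsum_mul_left]
    linarith
  have key := h E (fun x => chi R x * u x) (fun x => chi R x * f x + err R u x) hvs hfs heqv a ha
  simp only [chi_one R hR a (ha.trans hρ), one_mul] at key
  exact final_ineq t R d g _ _ _ _ _ ht hR hg (by positivity) (tsum_nonneg fun x => sq_nonneg _)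
    (hvs.tsum_le_tsum (fun x => hcs _ x) hu) hft hsc key

end Pool.Agent.T2h98.GBK
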