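import Pool.Agent.W788.BK.Fin
import Pool.Agent.T2h98.GBK.Cut
import Mathlib.Probability.Distributions.Gaussian.Real

/-! The good event for Gaussian disorder. -/

set_option autoImplicit false

open scoped BigOperators
open MeasureTheory ProbabilityTheory

namespace Pool.Agent.T2h98.GBK

open Pool.Agent.W788.BK
open Pool.Agent.H4R2.LO (Zd)

variable {d : ℕ}

/-- clipping, normalised -/
noncomputable def clip (B v : ℝ) : ℝ := max (-1) (min 1 (v / B))

theorem clip_eq {B v : ℝ} (hB : 0 < B) (h : |v| ≤ B) : clip B v = v / B := by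
  rw [abs_le] at h
  have h1 : v / B ≤ 1 := (div_le_one hB).2 h.2
  have h2 : -1 ≤ v / B := by
    rw [le_div_iff₀ hB]
    linarith [h.1]
  unfold clip
  rw [min_eq_right h1, max_eq_right h2]

theorem abs_clip (B v : ℝ) : |clip B v| ≤ 1 := by
  unfold clip
  rw [abs_le]
  exact ⟨le_max_left _ _, max_le (by norm_num) (min_le_left _ _)⟩

theorem measurable_clip (B : ℝ) : Measurable (clip B) := by
  unfold clip
  fun_prop

theorem clip_neg (B v : ℝ) : clip B (-v) = -clip B v := by
  unfold clip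
  rw [neg_div]
  rcases le_total (v / B) 1 with h1 | h1 <;> rcases le_total (-1) (v / B) with h2 | h2
  · rw [min_eq_right h1, max_eq_right h2, min_eq_right (by linarith), max_eq_right (by linarith)]
  · rw [min_eq_right h1, max_eq_left h2, min_eq_left (by linarith), max_eq_right (by linarith)]
    norm_num
  · rw [min_eq_left h1, min_eq_right (by linarith), max_eq_left (by linarith),
      max_eq_right (by norm_num)]
  · exfalso; linarith

theorem mgf_one (t : ℝ) : mgf (fun v : ℝ => v) (gaussianReal 0 1) t = Real.exp (t ^ 2 / 2) := by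
  rw [mgf_gaussianReal (μ := 0) (v := 1) (by simp)]
  simp

theorem tail (R : ℝ) (hR : 0 ≤ R) :
    (gaussianReal 0 1).real {v | R < |v|} ≤ 2 * Real.exp (-(R ^ 2 / 2)) := by
  have h1 := measure_ge_le_exp_mul_mgf (μ := gaussianReal 0 1) (X := fun v : ℝ => v) (t := R) R hR
    (integrable_exp_mul_gaussianReal R)
  have h2 := measure_le_le_exp_mul_mgf (μ := gaussianReal 0 1) (X := fun v : ℝ => v) (t := -R) (-R)
    (by linarith) (integrable_exp_mul_gaussianReal (-R))
  rw [mgf_one, ← Real.exp_add] at h1 h2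
  have e1 : -R * R + R ^ 2 / 2 = -(R ^ 2 / 2) := by ring
  have e2 : - -R * -R + (-R) ^ 2 / 2 = -(R ^ 2 / 2) := by ring
  rw [e1] at h1
  rw [e2] at h2
  have hsub : {v : ℝ | R < |v|} ⊆ {v : ℝ | R ≤ v} ∪ {v : ℝ | v ≤ -R} := by
    intro v hv
    have hv' : R < |v| := hv
    rcases lt_abs.1 hv' with h | h
    · exact Or.inl h.le
    · refine Or.inr ?_
      show v ≤ -R
      linarith
  calc (gaussianReal 0 1).real {v | R < |v|} ≤ _ := measureReal_mono hsub
    _ ≤ _ := measureReal_union_le _ _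
    _ ≤ _ := by linarith

/-- the clipped law -/
noncomputable def nu (B : ℝ) : Measure ℝ := (gaussianReal 0 1).map (clip B)

instance (B : ℝ) : IsProbabilityMeasure (nu B) :=
  Measure.isProbabilityMeasure_map (measurable_clip B).aemeasurable

theorem nu_bdd (B : ℝ) : ∀ᵐ s ∂(nu B), |s| ≤ 1 := by
  unfold nu
  rw [ae_map_iff (measurable_clip B).aemeasurable (measurableSet_le (by fun_prop) (by fun_prop))]
  exact Filter.Eventually.of_forall fun s => abs_clip B s

theorem nu_mean (B : ℝ) : ∫ s, s ∂(nu B) = 0 := by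
  unfold nu
  rw [integral_map (measurable_clip B).aemeasurable (by fun_prop)]
  have h1 : (gaussianReal 0 1).map (fun s : ℝ => -s) = gaussianReal 0 1 := by
    have := gaussianReal_map_neg (μ := 0) (v := 1)
    rwa [neg_zero] at this
  have h2 : ∫ s, clip B s ∂(gaussianReal 0 1) = ∫ s, clip B (-s) ∂(gaussianReal 0 1) := by
    conv_lhs => rw [← h1]
    rw [integral_map measurable_neg.aemeasurable (measurable_clip B).aestronglyMeasurable]
  simp only [clip_neg, integral_neg] at h2
  linarith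

/-- the box -/
noncomputable def box (R : ℝ) : Finset (Zd d) :=
  Finset.Icc (fun _ => -(⌊R⌋₊ : ℤ)) (fun _ => (⌊R⌋₊ : ℤ))

theorem mem_box (R : ℝ) (x : Zd d) (hx : ‖x‖ ≤ R) : x ∈ box R := by
  unfold box
  rw [Finset.mem_Icc]
  have h1 : ∀ i, |x i| ≤ (⌊R⌋₊ : ℤ) := by
    intro i
    have h2 : ‖x i‖ ≤ R := (norm_le_pi_norm x i).trans hx
    rw [Int.norm_eq_abs] at h2
    have h3 : ((x i).natAbs : ℝ) ≤ R := by
      rw [Nat.cast_natAbs]
      exact_mod_cast h2
    have h4 : (x i).natAbs ≤ ⌊R⌋₊ := Nat.le_floor h3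
    rw [Int.abs_eq_natAbs]
    exact_mod_cast h4
  exact ⟨fun i => (abs_le.1 (h1 i)).1, fun i => (abs_le.1 (h1 i)).2⟩

theorem card_box (R : ℝ) (hR : 1 ≤ R) : ((box (d := d) R).card : ℝ) ≤ (3 * R) ^ d := by
  have h1 : (box (d := d) R).card = (2 * ⌊R⌋₊ + 1) ^ d := by
    unfold box
    rw [Pi.card_Icc]
    simp only [Int.card_Icc]
    rw [Finset.prod_const, Finset.card_univ, Fintype.card_fin]
    congr 1
    omega
  rw [h1]
  push_cast
  apply pow_le_pow_left₀ (by positivity)
  have := Nat.floor_le (show 0 ≤ R by linarith)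
  linarith

/-- the set of potentials bounded by `B` in the box -/
def Bd (R B : ℝ) : Set (Zd d → ℝ) := {ξ | ∀ x ∈ box (d := d) R, |ξ x| ≤ B}

theorem Bd_meas (R B : ℝ) : MeasurableSet (Bd (d := d) R B) := by
  have : Bd (d := d) R B = ⋂ x ∈ box (d := d) R, {ξ | |ξ x| ≤ B} := by
    ext ξ
    simp [Bd]
  rw [this]
  refine Finset.measurableSet_biInter _ fun x _ => ?_
  exact measurableSet_le (by fun_prop) (by fun_prop)

theorem Bd_prob (R B : ℝ) (hR : 1 ≤ R) (hB : 0 ≤ B) :
    (Measure.infinitePi fun _ : Zd d => gaussianReal 0 1).real (Bd (d := d) R B)ᶜ ≤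
      (3 * R) ^ d * (2 * Real.exp (-(B ^ 2 / 2))) := by
  have h1 : (Bd (d := d) R B)ᶜ = ⋃ x ∈ box (d := d) R, {ξ : Zd d → ℝ | B < |ξ x|} := by
    ext ξ
    simp [Bd]
  rw [h1]
  refine (measureReal_biUnion_finset_le _ _).trans ?_
  have h2 : ∀ x : Zd d, (Measure.infinitePi fun _ : Zd d => gaussianReal 0 1).real
      {ξ : Zd d → ℝ | B < |ξ x|} ≤ 2 * Real.exp (-(B ^ 2 / 2)) := by
    intro x
    have h3 : (Measure.infinitePi fun _ : Zd d => gaussianReal 0 1).real
        {ξ : Zd d → ℝ | B < |ξ x|} = (gaussianReal 0 1).real {v | B < |v|} := by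
      have h4 := Measure.infinitePi_map_eval (μ := fun _ : Zd d => gaussianReal 0 1) x
      conv_rhs => rw [← h4]
      rw [map_measureReal_apply (by fun_prop) (measurableSet_lt (by fun_prop) (by fun_prop))]
      rfl
    rw [h3]
    exact tail B hB
  refine (Finset.sum_le_sum fun x _ => h2 x).trans ?_
  rw [Finset.sum_const, nsmul_eq_mul]
  exact mul_le_mul_of_nonneg_right (card_box R hR) (by positivity)

theorem SM1_mono (σ ρ ρ' t g : ℝ) (ξ : Zd d → ℝ) (h : SM1 d σ ρ t g ξ) (hρ : ρ' ≤ ρ) :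
    SM1 d σ ρ' t g ξ :=
  fun E u f hu hf heq a ha => h E u f hu hf heq a (ha.trans hρ)

/-- the numerical facts -/
theorem numbers (d : ℕ) (y Y : ℝ) (hY : Y = Real.exp (y / 200))
    (hy : 80000 * (3 + 4 * (d : ℝ)) ≤ y) :
    8 * (d + 2 : ℝ) ≤ Y ∧ 4 * d ≤ Real.exp (-(19 / 9) * y) * Real.exp Y ∧
      Real.exp (-Real.exp ((152 / 153 * y) / 100)) +
        (3 * (2 * Real.exp Y)) ^ d * (2 * Real.exp (-(Real.exp (y / 153) ^ 2 / 2))) ≤
        Real.exp (-Y) ∧ Y ≤ Real.exp ((152 / 153 * y) / 100) := by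
  have hd0 : (0 : ℝ) ≤ d := Nat.cast_nonneg d
  have hy0 : 240000 ≤ y := by nlinarith
  have hYq : (y / 200) ^ 2 / 2 ≤ Y := by
    rw [hY]
    have := Real.quadratic_le_exp_of_nonneg (show 0 ≤ y / 200 by linarith)
    nlinarith
  have hYy : 3 * y + 4 * d * y ≤ Y := by
    have : (3 * y + 4 * d * y) ≤ (y / 200) ^ 2 / 2 := by nlinarith
    linarith
  have hY8 : 8 * (d + 2 : ℝ) ≤ Y := by nlinarith
  have hY1 : 1 ≤ Y := by nlinarith
  refine ⟨hY8, ?_, ?_, ?_⟩
  · rw [← Real.exp_add]
    have h1 : 4 * (d : ℝ) + y * (8 / 9) ≤ -(19 / 9) * y + Y := by nlinarith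
    have h2 := Real.add_one_le_exp (-(19 / 9) * y + Y)
    linarith
  · have e1 : Y * 2 ≤ Real.exp ((152 / 153 * y) / 100) := by
      have h1 : Real.exp (y / 200) * 2 ≤ Real.exp (y / 200) * Real.exp 1 := by
        have := Real.exp_one_gt_d9
        apply mul_le_mul_of_nonneg_left _ (Real.exp_pos _).le
        linarith
      rw [hY]
      refine h1.trans ?_
      rw [← Real.exp_add]
      apply Real.exp_le_exp.2
      linarith
    have e2 : Y ^ 2 ≤ Real.exp (y / 153) ^ 2 := by
      apply pow_le_pow_left₀ (by linarith)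
      rw [hY]
      apply Real.exp_le_exp.2
      linarith
    have h1 : Real.exp (-Real.exp ((152 / 153 * y) / 100)) ≤ Real.exp (-Y) / 2 := by
      have h2 : Real.exp (-Real.exp ((152 / 153 * y) / 100)) ≤ Real.exp (-Y + -1) := by
        apply Real.exp_le_exp.2
        linarith
      rw [Real.exp_add] at h2
      have h3 : Real.exp (-1) ≤ 1 / 2 := by
        rw [Real.exp_neg, one_div]
        apply inv_anti₀ (by norm_num)
        have := Real.exp_one_gt_d9
        linarith
      have := mul_le_mul_of_nonneg_left h3 (Real.exp_pos (-Y)).le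
      linarith
    have h4 : (3 * (2 * Real.exp Y)) ^ d * (2 * Real.exp (-(Real.exp (y / 153) ^ 2 / 2))) ≤
        Real.exp (-Y) / 2 := by
      have h5 : (3 * (2 * Real.exp Y)) ≤ Real.exp (2 + Y) := by
        rw [Real.exp_add]
        have : (6 : ℝ) ≤ Real.exp 2 := by
          have h6 := Real.exp_one_gt_d9
          have h7 : Real.exp 2 = Real.exp 1 * Real.exp 1 := by
            rw [← Real.exp_add]; norm_num
          rw [h7]
          nlinarith
        nlinarith [Real.exp_pos Y]
      have h6 : (3 * (2 * Real.exp Y)) ^ d ≤ Real.exp (d * (2 + Y)) := by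
        rw [Real.exp_nat_mul]
        exact pow_le_pow_left₀ (by positivity) h5 d
      have h7 : (2 * Real.exp (-(Real.exp (y / 153) ^ 2 / 2))) ≤ Real.exp (1 - Y ^ 2 / 2) := by
        rw [sub_eq_add_neg, Real.exp_add]
        have := Real.exp_one_gt_d9
        have h8 : Real.exp (-(Real.exp (y / 153) ^ 2 / 2)) ≤ Real.exp (-(Y ^ 2 / 2)) := by
          apply Real.exp_le_exp.2
          linarith
        have h9 := Real.exp_pos (-(Real.exp (y / 153) ^ 2 / 2))
        nlinarith
      calc (3 * (2 * Real.exp Y)) ^ d * (2 * Real.exp (-(Real.exp (y / 153) ^ 2 / 2))) ≤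
          Real.exp (d * (2 + Y)) * Real.exp (1 - Y ^ 2 / 2) := by gcongr
        _ = Real.exp (d * (2 + Y) + (1 - Y ^ 2 / 2)) := by rw [← Real.exp_add]
        _ ≤ Real.exp (-Y + -1) := by
            apply Real.exp_le_exp.2
            nlinarith
        _ ≤ Real.exp (-Y) / 2 := by
            rw [Real.exp_add]
            have h3 : Real.exp (-1) ≤ 1 / 2 := by
              rw [Real.exp_neg, one_div]
              apply inv_anti₀ (by norm_num)
              have := Real.exp_one_gt_d9
              linarith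
            have := mul_le_mul_of_nonneg_left h3 (Real.exp_pos (-Y)).le
            linarith
    linarith
  · rw [hY]
    apply Real.exp_le_exp.2
    linarith

/-- **the good event for Gaussian disorder** -/
theorem event (hTH : S_THIRD) (hFL : S_FLUCT) (hIN : S_INV) (hMB : S_MB) (hCO : S_CONC)
    (hSU : S_SUP) (hSI : S_SITE) (hQB : S_QB) (hLO : S_LOW) (hAD : S_ADM)
    (d : ℕ) (hd : 3 ≤ d) : ∃ y0 K : ℝ, 1 ≤ y0 ∧ 0 < K ∧ ∀ y : ℝ, y0 ≤ y →
    ∃ G : Set (Zd d → ℝ), MeasurableSet G ∧
      1 - Real.exp (-Real.exp (y / 200)) ≤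
        (Measure.infinitePi fun _ : Zd d => gaussianReal 0 1).real G ∧
      ∀ ξ ∈ G, SM1 d (Real.exp (-y)) (Real.exp (Real.exp (y / 200)))
        (Real.exp (-(19 / 9) * y)) (K * y) ξ := by
  obtain ⟨y1, h1⟩ := engine hTH hFL hIN hMB hCO hSU hSI hQB hLO hAD d hd 1 one_pos
  have hC1 := C1_ge
  refine ⟨max (2 * |y1| + 1) (80000 * (3 + 4 * (d : ℝ))), 2 * (192 * (C1 * (17 / 8 * (152 / 153)))),
    le_max_of_le_left (by linarith [abs_nonneg y1]), by positivity, ?_⟩
  intro y hy
  have hy00 : 0 < y := by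
    have : (0 : ℝ) ≤ d := Nat.cast_nonneg d
    have h3 := le_trans (le_max_right _ _) hy
    linarith
  have hyd : 80000 * (3 + 4 * (d : ℝ)) ≤ y := le_trans (le_max_right _ _) hy
  have hyy : 2 * |y1| + 1 ≤ y := le_trans (le_max_left _ _) hy
  have hy1 : y1 ≤ 152 / 153 * y := by
    have := le_abs_self y1
    have := abs_nonneg y1
    linarith
  obtain ⟨Y, hY⟩ : ∃ Y, Y = Real.exp (y / 200) := ⟨_, rfl⟩
  obtain ⟨n1, n2, n3, n4⟩ := numbers d y Y hY hyd
  rw [← hY]
  obtain ⟨B, hB⟩ : ∃ B, B = Real.exp (y / 153) := ⟨_, rfl⟩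
  have hB0 : 0 < B := by rw [hB]; positivity
  obtain ⟨R, hR⟩ : ∃ R, R = Real.exp Y := ⟨_, rfl⟩
  have hY0 : 0 < Y := by rw [hY]; positivity
  have hR1 : 1 ≤ R := by rw [hR]; exact Real.one_le_exp hY0.le
  obtain ⟨G, hG, hP, hb⟩ := h1 (152 / 153 * y) hy1 (nu B) inferInstance (nu_bdd B) (nu_mean B)
  have hTm : Measurable (fun (ξ : Zd d → ℝ) x => clip B (ξ x)) :=
    measurable_pi_lambda _ fun x => (measurable_clip B).comp (measurable_pi_apply x)
  have hlaw : (Measure.infinitePi fun _ : Zd d => gaussianReal 0 1).map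
      (fun ξ x => clip B (ξ x)) = Measure.infinitePi fun _ : Zd d => nu B :=
    Measure.infinitePi_map_pi (μ := fun _ : Zd d => gaussianReal 0 1)
      (f := fun _ (s : ℝ) => clip B s) (fun _ => measurable_clip B)
  refine ⟨(fun ξ x => clip B (ξ x)) ⁻¹' G ∩ Bd (2 * R) B, (hTm hG).inter (Bd_meas _ _), ?_, ?_⟩
  · have e1 : (Measure.infinitePi fun _ : Zd d => gaussianReal 0 1).real
        ((fun ξ x => clip B (ξ x)) ⁻¹' G) = (Measure.infinitePi fun _ : Zd d => nu B).real G := by
      rw [← hlaw, map_measureReal_apply hTm hG]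
    rw [← e1] at hP
    have e2 := Bd_prob (d := d) (2 * R) B (by linarith) hB0.le
    have e3 : (Measure.infinitePi fun _ : Zd d => gaussianReal 0 1).real
        ((fun ξ x => clip B (ξ x)) ⁻¹' G ∩ Bd (2 * R) B) ≥
        (Measure.infinitePi fun _ : Zd d => gaussianReal 0 1).real
          ((fun ξ x => clip B (ξ x)) ⁻¹' G) -
        (Measure.infinitePi fun _ : Zd d => gaussianReal 0 1).real (Bd (2 * R) B)ᶜ := by
      have e4 := measureReal_inter_add_sdiff (μ := Measure.infinitePi fun _ : Zd d =>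
        gaussianReal 0 1) (s := (fun (ξ : Zd d → ℝ) x => clip B (ξ x)) ⁻¹' G)
        (Bd_meas (d := d) (2 * R) B)
      have e5 : (Measure.infinitePi fun _ : Zd d => gaussianReal 0 1).real
          ((fun (ξ : Zd d → ℝ) x => clip B (ξ x)) ⁻¹' G \ Bd (2 * R) B) ≤
          (Measure.infinitePi fun _ : Zd d => gaussianReal 0 1).real (Bd (2 * R) B)ᶜ :=
        measureReal_mono (fun x hx => hx.2)
      linarith
    rw [hR, hB] at e2
    rw [hR, hB] at e3
    rw [hB] at hP
    rw [hR, hB]
    linarith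
  · intro ξ hξ
    have s1 := hb _ hξ.1
    have e5 : -(17 / 8) * (152 / 153 * y) = -(19 / 9) * y := by ring
    rw [e5] at s1
    have s2 := SM1_mono _ _ R _ _ _ s1 (by
      rw [hR]
      exact Real.exp_le_exp.2 n4)
    have s3 := SM1_cut (Real.exp (-1 * (152 / 153 * y))) (Real.exp (-y)) R _ _ R _ ξ s2
      (Real.exp_pos _) (by positivity) (by linarith) le_rfl (fun x hx => by
        have hx2 := hξ.2 x (mem_box _ x hx)
        simp only
        rw [clip_eq hB0 hx2, hB, mul_div_assoc', div_eq_mul_inv, ← Real.exp_neg]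
        have e6 : Real.exp (-y) = Real.exp (-1 * (152 / 153 * y)) * Real.exp (-(y / 153)) := by
          rw [← Real.exp_add]
          congr 1
          ring
        rw [e6]
        ring) (by rw [hR]; exact n2)
    rw [← hR]
    have e7 : 2 * (192 * (C1 * (17 / 8 * (152 / 153 * y)))) =
        2 * (192 * (C1 * (17 / 8 * (152 / 153)))) * y := by ring
    rw [e7] at s3
    exact s3

end Pool.Agent.T2h98.GBK
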